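import Pool.Agent.Helper79.LG.Goals
import Pool.Agent.Helper93.IG.ACT

/-!
Packet LG-RS (helper79, project LG): `G_RS`, restriction to a smaller level.
-/

universe u v

open scoped BigOperators

open Pool.Agent.Helper64.IG

namespace Pool.Agent.Helper28.LG

open Pool.Agent.Helper64.IG.PkACT

theorem append_dite28 {α : Type*} {r p : ℕ} (S : Fin r → α) (u : Fin p → α) (i : Fin (r + p)) :
    Fin.append S u i = if h : i.val < r then S ⟨i.val, h⟩ else u ⟨i.val - r, by omega⟩ := by
  refine Fin.addCases (fun j => ?_) (fun j => ?_) i
  · rw [Fin.append_left, dif_pos (by simp)]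
    rfl
  · rw [Fin.append_right, dif_neg (by simp)]
    congr 1
    apply Fin.ext
    simp

/-- the step of the induction on `q`. -/
theorem rs_theta28 (K : Type u) [Field K] (x : Pt K) (n p : ℕ) :
    ∀ (r q : ℕ) (hq : q = r + p),
    ∃ S : Fin r → Ix n q, Function.Injective (Sum.elim S (inc (le_refl n)
        (by omega : p ≤ q))) ∧
      ∀ a : Fin p → Ix n p, x.x n p a =
        x.x n q (fun j => Fin.append S (inc (le_refl n) (by omega : p ≤ q) ∘ a)
          (Fin.cast hq j)) := by
  intro r
  induction r with
  | zero =>
    intro q hq
    have hq' : q = p := by omega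
    subst hq'
    refine ⟨fun i => i.elim0, ?_, ?_⟩
    · intro a b hab
      rcases a with a | a
      · exact a.elim0
      · rcases b with b | b
        · exact b.elim0
        · simp only [Sum.elim_inr] at hab
          rw [inc_inj _ _ hab]
    · intro a
      congr 1
      funext j
      rw [append_dite28, dif_neg (by simp)]
      have : (⟨(Fin.cast hq j).val - 0, by simp⟩ : Fin q) = j := by
        apply Fin.ext
        simp
      rw [this]
      show a j = inc _ _ (a j)
      unfold inc
      cases a j <;> rfl
  | succ r ih =>
    intro q hq
    obtain ⟨q, rfl⟩ : ∃ q', q = q' + 1 := ⟨q - 1, by omega⟩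
    have hq1 : q = r + p := by omega
    obtain ⟨S, hS, hx⟩ := ih q hq1
    refine ⟨Fin.cons (Sum.inr (Fin.last q)) (inc (le_refl n) (Nat.le_succ q) ∘ S), ?_, ?_⟩
    · have hout : ∀ z : Ix n q, inc (le_refl n) (Nat.le_succ q) z ≠
          (Sum.inr (Fin.last q) : Ix n (q + 1)) := by
        intro z hz
        exact last_out (le_refl n) (le_refl q) (Nat.le_succ q) ⟨z, hz⟩
      have hSinj : Function.Injective S := fun a b h => by
        have := hS (a₁ := Sum.inl a) (a₂ := Sum.inl b) h
        exact Sum.inl_injective this
      have hSne : ∀ a b, S a ≠ inc (le_refl n) (by omega : p ≤ q) b := fun a b h => by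
        have := hS (a₁ := Sum.inl a) (a₂ := Sum.inr b) h
        cases this
      refine Function.Injective.sumElim ?_ (inc_inj _ _) ?_
      · rw [Fin.cons_injective_iff]
        refine ⟨?_, (inc_inj _ _).comp hSinj⟩
        rintro ⟨i, hi⟩
        exact hout _ hi
      · intro a b
        refine Fin.cases ?_ (fun a => ?_) a
        · rw [Fin.cons_zero]
          intro h
          exact last_out (le_refl n) (by omega : p ≤ q) (by omega) ⟨b, h.symm⟩
        · rw [Fin.cons_succ]
          intro h
          apply hSne a b
          apply inc_inj (le_refl n) (Nat.le_succ q)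
          rw [inc_inc]
          exact h
    · intro a
      rw [hx a, ← x.theta_eq n q]
      unfold theta
      congr 1
      funext j
      refine Fin.cases ?_ (fun j => ?_) j
      · rw [Fin.cons_zero, append_dite28, dif_pos (by simp)]
        have : (⟨(Fin.cast hq 0).val, by simp⟩ : Fin (r + 1)) = 0 := by
          apply Fin.ext
          simp
        rw [this, Fin.cons_zero]
      · rw [Fin.cons_succ]
        simp only [Function.comp_apply]
        rw [append_dite28, append_dite28]
        by_cases h : j.val < r
        · have h1 : (Fin.cast hq1 j).val < r := h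
          have h2 : (Fin.cast hq j.succ).val < r + 1 := by
            simp only [Fin.val_cast, Fin.val_succ]
            omega
          rw [dif_pos h1, dif_pos h2]
          have : (⟨(Fin.cast hq j.succ).val, h2⟩ : Fin (r + 1)) =
              Fin.succ ⟨(Fin.cast hq1 j).val, h1⟩ := by
            apply Fin.ext
            simp
          rw [this, Fin.cons_succ]
          rfl
        · have h1 : ¬ (Fin.cast hq1 j).val < r := h
          have h2 : ¬ (Fin.cast hq j.succ).val < r + 1 := by
            simp only [Fin.val_cast, Fin.val_succ]
            omega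
          rw [dif_neg h1, dif_neg h2]
          simp only [Function.comp_apply]
          rw [inc_inc]
          congr 2
          apply Fin.ext
          simp only [Fin.val_cast, Fin.val_succ]
          omega

/-- both inductions. -/
theorem rs_xi28 (K : Type u) [Field K] (x : Pt K) (n p r q : ℕ) (hq : q = r + p) :
    ∀ (m : ℕ) (hn : n ≤ m),
    ∃ S : Fin r → Ix m q, Function.Injective (Sum.elim S (inc hn
        (by omega : p ≤ q))) ∧
      ∀ a : Fin p → Ix n p, x.x n p a =
        x.x m q (fun j => Fin.append S (inc hn (by omega : p ≤ q) ∘ a)
          (Fin.cast hq j)) := by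
  intro m hn
  induction m, hn using Nat.le_induction with
  | base => exact rs_theta28 K x n p r q hq
  | succ m hn ih =>
    obtain ⟨S, hS, hx⟩ := ih
    refine ⟨inc (Nat.le_succ m) (le_refl q) ∘ S, ?_, ?_⟩
    · have h1 : Sum.elim (inc (Nat.le_succ m) (le_refl q) ∘ S) (inc (hn.trans (Nat.le_succ m))
          (by omega : p ≤ q)) = inc (Nat.le_succ m) (le_refl q) ∘
            Sum.elim S (inc hn (by omega : p ≤ q)) := by
        funext z
        rcases z with z | z
        · rfl
        · simp only [Sum.elim_inr, Function.comp_apply]
          rw [inc_inc]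
      have h2 := (inc_inj (Nat.le_succ m) (le_refl q)).comp hS
      rw [← h1] at h2
      exact h2
    · intro a
      rw [hx a, ← x.xi_eq m q]
      unfold xi
      congr 1
      funext j
      simp only [Function.comp_apply]
      rw [append_dite28, append_dite28]
      by_cases h : (Fin.cast hq j).val < r
      · rw [dif_pos h, dif_pos h]
        rfl
      · rw [dif_neg h, dif_neg h]
        simp only [Function.comp_apply]
        rw [inc_inc]

theorem rs : Pool.Agent.Helper79.LG.G_RS.{u} := by
  intro K _ x n p m q hn hp
  obtain ⟨S, hS, hx⟩ := rs_xi28 K x n p (q - p) q (by omega) m hn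
  exact ⟨S, hS, hx⟩

end Pool.Agent.Helper28.LG
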